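import Mathlib

open EuclideanGeometry

namespace Pool.Agent.MP_237f1e_co

/-- A family of point sets `γ e`, one for each edge `e` of the simple graph `G` on the finite
planar point set `P`, is a plane drawing: distinct edges meet only at common endpoints, and no
edge passes through a point of `P` other than its endpoints. -/
def IsPlaneDrawing (P : Finset (EuclideanSpace ℝ (Fin 2))) (G : SimpleGraph P)
    (γ : Sym2 P → Set (EuclideanSpace ℝ (Fin 2))) : Prop :=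
  (∀ e ∈ G.edgeSet, ∀ e' ∈ G.edgeSet, e ≠ e' → ∀ z ∈ γ e ∩ γ e',
      ∃ v : P, v ∈ e ∧ v ∈ e' ∧ z = v) ∧
  (∀ e ∈ G.edgeSet, ∀ v : P, (v : EuclideanSpace ℝ (Fin 2)) ∈ γ e → v ∈ e)

/-- `G` is a plane straight-line graph on `P`. -/
def IsStraightLineGraph (P : Finset (EuclideanSpace ℝ (Fin 2))) (G : SimpleGraph P) : Prop :=
  ∃ γ : Sym2 P → Set (EuclideanSpace ℝ (Fin 2)), IsPlaneDrawing P G γ ∧
    ∀ a c : P, G.Adj a c → γ s(a, c) = segment ℝ (a : EuclideanSpace ℝ (Fin 2)) c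

/-- `G` is an `α`-bend graph on `P`. -/
def IsBendGraph (P : Finset (EuclideanSpace ℝ (Fin 2))) (α : ℝ) (G : SimpleGraph P) : Prop :=
  ∃ γ : Sym2 P → Set (EuclideanSpace ℝ (Fin 2)), IsPlaneDrawing P G γ ∧
    ∀ a c : P, G.Adj a c → ∃ b : EuclideanSpace ℝ (Fin 2),
      ¬ Collinear ℝ {(a : EuclideanSpace ℝ (Fin 2)), b, (c : EuclideanSpace ℝ (Fin 2))} ∧
      ∠ (a : EuclideanSpace ℝ (Fin 2)) b c = α ∧
      γ s(a, c) = segment ℝ (a : EuclideanSpace ℝ (Fin 2)) b ∪ segment ℝ b c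

end Pool.Agent.MP_237f1e_co
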